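import Mathlib
import Pool.Agent.W_MP_cc6734_lc.Final

open Cardinal Ordinal Set

namespace Pool.Agent.Results.MP_cc6734_lc.ErdosHajnalOmega3

universe u

/-- The generalized continuum hypothesis: `2 ^ κ = κ⁺` for every infinite cardinal `κ`. -/
def GCH : Prop :=
  ∀ κ : Cardinal.{u}, ℵ₀ ≤ κ → (2 : Cardinal.{u}) ^ κ = Order.succ κ

/-- The ordinal partition relation `α → (β, γ)²`.  The well-ordered type `α.ToType` has order type
`α`; a colouring assigns `0` or `1` to every two-element subset of it.  The relation says that for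
every such colouring there is a set `H` of order type `β` all of whose two-element subsets have
colour `0`, or a set `H` of order type `γ` all of whose two-element subsets have colour `1`. -/
def Arrow (α β γ : Ordinal.{u}) : Prop :=
  ∀ c : {s : Finset α.ToType // s.card = 2} → Fin 2,
    (∃ H : Set α.ToType, typeLT H = β ∧
      ∀ s : {s : Finset α.ToType // s.card = 2}, (s.1 : Set α.ToType) ⊆ H → c s = 0) ∨
    (∃ H : Set α.ToType, typeLT H = γ ∧
      ∀ s : {s : Finset α.ToType // s.card = 2}, (s.1 : Set α.ToType) ⊆ H → c s = 1)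

/-- GCH implies `ω₃ → (ω₂ + ω₁, ω₂ + ω)²`. -/
theorem result : GCH.{u} → Arrow.{u} (ω_ 3) (ω_ 2 + ω_ 1) (ω_ 2 + ω) := by
  intro hG c
  classical
  have h0 : (2 : Cardinal.{u}) ^ (ℵ₀ : Cardinal.{u}) = ℵ₁ := by
    rw [hG ℵ₀ le_rfl, succ_aleph0]
  have h1 : (2 : Cardinal.{u}) ^ (ℵ₁ : Cardinal.{u}) = ℵ_ 2 := by
    have : (2 : Ordinal.{u}) = 1 + 1 := by norm_num
    rw [hG ℵ₁ (aleph0_le_aleph 1), this, ← succ_aleph]
  have key := Pool.Agent.W_MP_cc6734_lc.arrow_pairs h0 h1
    (fun x y => if h : x < y then decide (c ⟨{x, y}, Finset.card_pair h.ne⟩ = 1) else false)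
  have hpair : ∀ s : {s : Finset (ω_ 3 : Ordinal.{u}).ToType // s.card = 2},
      ∃ x y, ∃ h : x < y, s = ⟨{x, y}, Finset.card_pair h.ne⟩ := by
    rintro ⟨s, hs⟩
    obtain ⟨x, y, hxy, rfl⟩ := Finset.card_eq_two.1 hs
    rcases lt_or_gt_of_ne hxy with h | h
    · exact ⟨x, y, h, rfl⟩
    · exact ⟨y, x, h, by simp [Finset.pair_comm x y]⟩
  rcases key with ⟨H, hH, hH'⟩ | ⟨H, hH, hH'⟩
  · refine Or.inl ⟨H, hH, fun s hs => ?_⟩
    obtain ⟨x, y, h, rfl⟩ := hpair s
    have hx : x ∈ H := hs (by simp)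
    have hy : y ∈ H := hs (by simp)
    have := hH' x hx y hy h
    simp only [h, dite_true, decide_eq_false_iff_not] at this
    omega
  · refine Or.inr ⟨H, hH, fun s hs => ?_⟩
    obtain ⟨x, y, h, rfl⟩ := hpair s
    have hx : x ∈ H := hs (by simp)
    have hy : y ∈ H := hs (by simp)
    have := hH' x hx y hy h
    simpa only [h, dite_true, decide_eq_true_eq] using this

end Pool.Agent.Results.MP_cc6734_lc.ErdosHajnalOmega3
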